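import Mathlib
import Pool.Agent.H17.Golomb

set_option autoImplicit false

namespace Pool.Agent.Results.MP_cb32b9_nt.NoRuler

def bose (F : Type) {K : Type} [Field F] [Fintype F] [Field K] [Algebra F K] (θ : K) :
    Set (ZMod (Fintype.card F ^ 2 - 1)) :=
  {a | ∃ v : F, θ ^ a.val = θ + algebraMap F K v}

theorem result (F K : Type) [Field F] [Fintype F] [Field K] [Algebra F K]
    (_hK : Module.finrank F K = 2) (θ : K) (hθ : orderOf θ = Fintype.card F ^ 2 - 1)
    (m : ℤ) (s : ZMod (Fintype.card F ^ 2 - 1)) :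
    ∃ t ∈ ({0, 1, 4, 10, 18, 23, 25} : Set ℕ),
      ¬ ∃ a ∈ bose F θ, (t : ZMod (Fintype.card F ^ 2 - 1)) =
        (m : ZMod (Fintype.card F ^ 2 - 1)) * a + s := by
  by_contra hc
  push Not at hc
  obtain ⟨p, hp⟩ := CharP.exists F
  obtain ⟨n, hpp, hn⟩ := FiniteField.card F p
  have : Fact p.Prime := ⟨hpp⟩
  have : CharP K p := charP_of_injective_algebraMap (algebraMap F K).injective p
  have hq : 1 < Fintype.card F := Fintype.one_lt_card
  unfold bose at hc
  have fv : ∀ v : F, iterateFrobenius K p n (algebraMap F K v) = algebraMap F K v := fun v => by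
    rw [iterateFrobenius_def, ← hn, ← map_pow, FiniteField.pow_card]
  have fθ : iterateFrobenius K p n θ = θ ^ Fintype.card F := by rw [iterateFrobenius_def, hn]
  set φ := iterateFrobenius K p n
  generalize Fintype.card F = q at *
  have hM : q < q ^ 2 - 1 := by
    have : q + 2 ≤ q ^ 2 := by nlinarith
    omega
  have : Fact (1 < q ^ 2 - 1) := ⟨by omega⟩
  have : NeZero (q ^ 2 - 1) := ⟨by omega⟩
  have hfin : IsOfFinOrder θ := orderOf_pos_iff.1 (by omega)
  have hθ0 : θ ≠ 0 := hfin.isUnit.ne_zero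
  have hδ : θ - φ θ ≠ 0 := by
    rw [fθ, sub_ne_zero]
    intro e
    have := pow_injOn_Iio_orderOf (x := θ) (show 1 ∈ Set.Iio _ by simp; omega)
      (show q ∈ Set.Iio _ by simp; omega) (by simpa using e)
    omega
  obtain ⟨a0, ⟨v0, h0⟩, e0⟩ := hc 0 (by simp)
  obtain ⟨a1, ⟨v1, h1⟩, e1⟩ := hc 1 (by simp)
  have hd : (m : ZMod (q ^ 2 - 1)) * (a1 - a0) = 1 := by
    push_cast at e0 e1
    linear_combination e0 - e1
  set c := θ ^ a0.val
  set g := θ ^ (a1 - a0).val with hg
  have key : ∀ t ∈ ({0, 1, 4, 10, 18, 23, 25} : Set ℕ),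
      c * g ^ t - φ c * φ g ^ t = θ - φ θ := by
    intro t ht
    obtain ⟨a, ⟨v, h⟩, e⟩ := hc t ht
    have ea : a = a0 + (a1 - a0) * t := by
      push_cast at e0
      linear_combination (a0 - a) * hd + (a1 - a0) * (e0 - e)
    have : c * g ^ t = θ + algebraMap F K v := by
      rw [← h, hg, ← pow_mul, ← pow_add, hfin.pow_eq_pow_iff_modEq, hθ,
        ← ZMod.natCast_eq_natCast_iff]
      push_cast
      simp only [ZMod.natCast_zmod_val]
      exact ea.symm
    rw [← map_pow, ← map_mul, this, map_add, fv]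
    ring
  have hc0 : c ≠ 0 := pow_ne_zero _ hθ0
  have hg1 : g - 1 ≠ 0 := by
    rw [sub_ne_zero]
    intro e
    have := orderOf_dvd_of_pow_eq_one e
    rw [hθ, ← ZMod.natCast_eq_zero_iff, ZMod.natCast_zmod_val] at this
    rw [this] at hd
    simp at hd
  have hφ1 : φ g - 1 ≠ 0 := by
    rw [← map_one φ, ← map_sub]
    exact (map_ne_zero φ).2 hg1
  have k0 := key 0 (by simp)
  have k1 := key 1 (by simp)
  have hgφ : g - φ g ≠ 0 := by
    intro e
    apply hδ
    apply mul_left_cancel₀ hg1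
    linear_combination k1 - g * k0 - φ c * e
  have E : ∀ t ∈ ({0, 1, 4, 10, 18, 23, 25} : Set ℕ),
      (φ g - 1) * (g ^ t - 1) = (g - 1) * (φ g ^ t - 1) := fun t ht => by
    apply mul_left_cancel₀ hc0
    linear_combination (φ g - 1) * (key t ht - k0) - (φ g ^ t - 1) * (k1 - k0)
  exact Pool.Agent.H17.Golomb.key g (φ g) (mul_ne_zero (mul_ne_zero hg1 hφ1) hgφ)
    (E 4 (by simp)) (E 10 (by simp)) (E 23 (by simp)) (E 25 (by simp))

end Pool.Agent.Results.MP_cb32b9_nt.NoRuler
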